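import Pool.Agent.J4H23.VD.Stm
import Pool.Agent.J4H23.NH.Ply

/-!
Project VD of helper23, job BPL: the reduction runs in polynomial time.
-/

set_option autoImplicit false

namespace Pool.Agent.J4H97.VD

open Finset Pool.Agent.NPC Pool.Agent.H49R2.PC Pool.Agent.J4H63.DB Pool.Agent.J4H23.SB
  Pool.Agent.J4H23.VD

variable {α : Type} [TEnc α]

theorem p_vs {G : α → WG} (hG : NPC.Poly G) : NPC.Poly (fun a => vs (G a)) :=
  NPC.Poly.map (F := fun _ (p : ℕ × ℕ) => p.1) (Poly.fst hG) (Poly.fst (Poly.snd Poly.id))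

theorem p_wl {G : α → WG} (hG : NPC.Poly G) : NPC.Poly (fun a => wl (G a)) :=
  NPC.Poly.map (F := fun _ (p : ℕ × ℕ) => p.2) (Poly.fst hG) (Poly.snd (Poly.snd Poly.id))

theorem u_n {G : α → WG} (hG : NPC.Poly G) : UPoly (fun a => (G a).1.length) :=
  UPoly.length (Poly.fst hG)

theorem p_st {G : α → WG} (hG : NPC.Poly G) : NPC.Poly (fun a => J4H23.VD.st (G a)) := by
  unfold J4H23.VD.st
  exact J4H98.SB.p_size (NPC.Poly.mul (NPC.Poly.const 100)
    (u_pow_const (UPoly.add (u_n hG) (UPoly.const 1)) 2).toPoly)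

theorem u_st {G : α → WG} (hG : NPC.Poly G) : UPoly (fun a => J4H23.VD.st (G a)) := by
  refine UPoly.of_le (p_st hG) (UPoly.mul (UPoly.const 100)
    (u_pow_const (UPoly.add (u_n hG) (UPoly.const 1)) 2)) fun a => ?_
  unfold J4H23.VD.st
  rw [Nat.size_le]
  exact Nat.lt_two_pow_self

theorem u_m {G : α → WG} (k : ℕ) (hG : NPC.Poly G) : UPoly (fun a => 2 ^ (k * J4H23.VD.st (G a))) := by
  have h1 : UPoly (fun a => 2 ^ J4H23.VD.st (G a)) :=
    UPoly.of_le (p_two_pow (u_st hG)) (UPoly.add (UPoly.mul (UPoly.const 2)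
      (UPoly.mul (UPoly.const 100) (u_pow_const (UPoly.add (u_n hG) (UPoly.const 1)) 2)))
      (UPoly.const 1)) fun a => by
        unfold J4H23.VD.st
        exact J4H98.SB.two_pow_size_le _
  have h2 := u_pow_const h1 k
  have e : (fun a => 2 ^ (k * J4H23.VD.st (G a))) = fun a => (2 ^ J4H23.VD.st (G a)) ^ k := by
    funext a
    rw [← pow_mul, mul_comm]
  rw [e]
  exact h2

theorem p_em {G : α → WG} (hG : NPC.Poly G) : NPC.Poly (fun a => J4H23.VD.em (G a)) := by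
  unfold J4H23.VD.em
  refine Poly.filter (p := fun a (e : ℕ × ℕ) =>
    decide (((vs (G a)).getD e.1 0, (vs (G a)).getD e.2 0) ∈ (G a).2) ||
      decide (((vs (G a)).getD e.2 0, (vs (G a)).getD e.1 0) ∈ (G a).2))
    (p_prodL (u_n hG).range (u_n hG).range) ?_
  have hG' : NPC.Poly (fun p : α × (ℕ × ℕ) => G p.1) := hG.comp (Poly.fst Poly.id)
  have h1 : NPC.Poly (fun p : α × (ℕ × ℕ) => (vs (G p.1)).getD p.2.1 0) :=
    Poly.getD (p_vs hG') (Poly.fst (Poly.snd Poly.id)) (NPC.Poly.const 0)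
  have h2 : NPC.Poly (fun p : α × (ℕ × ℕ) => (vs (G p.1)).getD p.2.2 0) :=
    Poly.getD (p_vs hG') (Poly.snd (Poly.snd Poly.id)) (NPC.Poly.const 0)
  exact Poly.or (p_mem_pair (Poly.pair h1 h2) (Poly.snd hG'))
    (p_mem_pair (Poly.pair h2 h1) (Poly.snd hG'))

theorem p_wn {m J : α → ℕ} {H : α → List (ℕ × ℕ)} {w : α → List ℕ} {r : α → List Bool}
    (hm : UPoly m) (hJ : NPC.Poly J) (hH : NPC.Poly H) (hw : NPC.Poly w) (hr : NPC.Poly r) :
    NPC.Poly (fun a => wn (m a) (H a) (w a) (J a) (r a)) := by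
  unfold wn
  refine Poly.pair ?_ ?_
  · exact NPC.Poly.map (F := fun a (i : ℕ) => (i, (w a).getD i 0)) hm.range
      (Poly.pair (Poly.snd Poly.id)
        (Poly.getD (hw.comp (Poly.fst Poly.id)) (Poly.snd Poly.id) (NPC.Poly.const 0)))
  · refine Poly.filter (p := fun a (e : ℕ × ℕ) =>
      decide (e.1 < e.2) && (decide (e ∈ H a) || nz (m a) (J a) (r a) e.1 e.2))
      (p_prodL hm.range hm.range) ?_
    refine Poly.and (Poly.decide_lt (Poly.fst (Poly.snd Poly.id)) (Poly.snd (Poly.snd Poly.id))) ?_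
    refine Poly.or (p_mem_pair (Poly.snd Poly.id) (hH.comp (Poly.fst Poly.id))) ?_
    exact J4H23.NH.p_nz (hm.toPoly.comp (Poly.fst Poly.id)) (hJ.comp (Poly.fst Poly.id))
      (hr.comp (Poly.fst Poly.id)) (Poly.fst (Poly.snd Poly.id)) (Poly.snd (Poly.snd Poly.id))

theorem p_back {G : α → WG} {C : α → List ℕ} (hG : NPC.Poly G) (hC : NPC.Poly C) :
    NPC.Poly (fun a => back (G a) (C a)) := by
  unfold back
  refine NPC.Poly.map (F := fun a (i : ℕ) => (vs (G a)).getD i 0)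
    (Poly.filter (p := fun a (i : ℕ) => decide (i < (G a).1.length)) hC
      (Poly.decide_lt (Poly.snd Poly.id) ((u_n hG).toPoly.comp (Poly.fst Poly.id)))) ?_
  exact Poly.getD (p_vs (hG.comp (Poly.fst Poly.id))) (Poly.snd Poly.id) (NPC.Poly.const 0)

theorem p_redAux {F : WG × List Bool → List ℕ} (hF : NPC.Poly F) {m s P : α → ℕ}
    {G : α → WG} {r : α → List Bool} (hm : UPoly m) (hs : NPC.Poly s) (hP : NPC.Poly P)
    (hG : NPC.Poly G) (hr : NPC.Poly r) :
    NPC.Poly (fun a => J4H23.VD.redAux F (m a) (s a) (P a) (G a) (r a)) := by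
  have hl : NPC.Poly (fun a => m a * m a * s a) :=
    NPC.Poly.mul (NPC.Poly.mul hm.toPoly hm.toPoly) hs
  have hr1 := p_take hr hl
  have hr2 := J4H23.NH.p_drop hr hl
  have hA : NPC.Poly (fun a => F (wn (m a) (J4H23.VD.em (G a)) (wl (G a)) (s a)
      ((r a).take (m a * m a * s a)), ((r a).drop (m a * m a * s a)).take (P a))) :=
    hF.comp (Poly.pair (p_wn hm hs (p_em hG) (p_wl hG) hr1) (p_take hr2 hP))
  unfold J4H23.VD.redAux
  exact p_back hG hA

theorem t_BPL : S_BPL := by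
  intro F p k hF
  have hG : NPC.Poly (fun x : WG × List Bool => x.1) := Poly.fst Poly.id
  have hr : NPC.Poly (fun x : WG × List Bool => x.2) := Poly.snd Poly.id
  have hm := u_m k hG
  exact p_redAux hF hm (p_st hG)
    (p_eval (NPC.Poly.add hm.toPoly (J4H98.SB.p_size (Poly.sum (p_wl hG)))) p) hG hr

end Pool.Agent.J4H97.VD
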